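import Pool.Agent.Q328.VD.Many
import Pool.Agent.Results.MP_c1bb77_ag.OneFrobeniusTowers

/-!
# The Mumford-Tate conjecture for the members of a family of abelian varieties near every integral point, few digits being changed

Let `A` be a family of polarized abelian varieties over an open subset `D ≠ 0` of the affine space of dimension
`d` over `𝓞 K[1/N]`, `K` a number field in `ℂ`, for example the Jacobians of the curves `y ^ 2 = f(x)` with all coefficients of `f`
as parameters. For an integral point `t` let `A_t` be the member. At a place above the prime number `p` the characteristic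
polynomial of the Frobenius element depends only on the residue class of `t` modulo `p`. Call it of tower type if it is the product of
the minimal polynomials of Weil numbers with the properties of the starting file `OneFrobeniusTowers`; for example, if it is
irreducible, with Galois group the group of all signed permutations, and not supersingular. By the theorem of Chavdarov almost all
residue classes modulo `p` have this property, for large `p`, if the monodromy group of the family is the full symplectic group.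

**Theorem.** Suppose that there is a set `P` of prime numbers with at least `y ^ θ` elements up to `y` for large `y`, such that for all
`p ∈ P` a proportion at least `κ > 0` of the residue classes modulo `p` is good and of tower type. Let an ARBITRARY integral point be
given, whose coordinates have at most `K` digits in base `b`. Choose for each coordinate `r` of the `K` positions and replace the
digits at these positions by arbitrary other digits; let `C log K ≤ r ≤ K / 2`. Then for all but a proportion `K ^ (-B)` of the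
choices the Mumford-Tate conjecture is true for the member `A_t` at the new point `t`, **for all `ℓ`**, in the strong form that all
Tate classes on all powers of `A_t` are linear combinations of products of Hodge classes of degree two. Here `B` is arbitrary, and `C`
depends only on the family, `P`, `κ`, `θ`, `b` and `B`, but not on the point or on the new digits.

The new points are a very thin set: `K ^ O(log K)` points, if `r = O(log K)`, while the box contains `b ^ (d K)` points, so that
theorems on almost all integral points of a box (Hilbert's irreducibility theorem, large sieve) say nothing about them.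

The proof combines the criterion `OneFrobeniusTowers` of the starting files at two primes with a law for the residues, modulo many
small primes, of vectors of which few digits are changed (`Pool.Agent.Q328.VD`, from the law of helper894 for one integer).
-/

set_option autoImplicit false

namespace Pool.Agent.Results.MP_c1bb77_ag.FewDigitMembers

open NumberField Module Polynomial Pool.Agent.H204R3.GP

/-- The residue class modulo `p` of an integral point `t`. -/
def red {d : ℕ} (p : ℕ) (t : Fin d → ℤ) : Fin d → ZMod p := fun j => (t j : ZMod p)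

section data

variable {k V Γ W T : Type} [Field k] [AddCommGroup V] [Module k V] [Group Γ] [AddCommGroup W] [Module ℚ W] [AddCommGroup T]
  [Module ℂ T]

/-- Bilinear forms on the vector space `V`. -/
def Bil (k V : Type) [Field k] [AddCommGroup V] [Module k V] : Type := V →ₗ[k] V →ₗ[k] k

/-- The value of a bilinear form. -/
def val (B : Bil k V) (x y : V) : k := (show V →ₗ[k] V →ₗ[k] k from B) x y

/-- The form is alternating. -/
def Alternating (B : Bil k V) : Prop := ∀ v, val B v v = 0

/-- The form is nondegenerate. -/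
def Nondegenerate (B : Bil k V) : Prop := ∀ u, (∀ v, val B v u = 0) → u = 0

/-- The group `Γ` acts by `ρ` with the multiplier `χ` on the form. -/
def Invariant (ρ : Representation k Γ V) (χ : Γ →* k) (B : Bil k V) : Prop :=
  ∀ s u v, val B (ρ s u) (ρ s v) = χ s * val B u v

/-- The rational form `B₀` corresponds to the form `B`. -/
def Compatible [CharZero k] (comp : W →+ V) (B₀ : Bil ℚ W) (B : Bil k V) : Prop :=
  ∀ x y, val B (comp x) (comp y) = ((val B₀ x y : ℚ) : k)

/-- The characteristic polynomial of `γ` is the polynomial `Q` with rational coefficients. -/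
def HasCharpoly [CharZero k] [FiniteDimensional k V] (ρ : Representation k Γ V) (γ : Γ) (Q : ℚ[X]) : Prop :=
  (ρ γ).charpoly = Q.map (algebraMap ℚ k)

end data

section family

variable (Γ W T : Type) [Group Γ] [AddCommGroup W] [Module ℚ W] [AddCommGroup T] [Module ℂ T] (V : ℕ → Type)
  [∀ ℓ, AddCommGroup (V ℓ)] [∀ (ℓ : ℕ) [Fact ℓ.Prime], Module ℚ_[ℓ] (V ℓ)]

/-- The data of a polarized abelian variety `A` over a number field with Galois group `Γ`: `W = H_1(A, ℚ)`, the tangent space `T` and
the period map `per`, the polarization `pol`, and for every prime number `ℓ` the rational Tate module `V ℓ` with the comparison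
map `comp ℓ`, the action `ρ ℓ` of `Γ` and the Weil pairing `ω ℓ`. -/
structure AV where
  per : W →+ T
  pol : Bil ℚ W
  comp : ∀ ℓ, W →+ V ℓ
  ρ : ∀ (ℓ : ℕ) [Fact ℓ.Prime], Representation ℚ_[ℓ] Γ (V ℓ)
  ω : ∀ (ℓ : ℕ) [Fact ℓ.Prime], Bil ℚ_[ℓ] (V ℓ)

variable {Γ W T V}

/-- The properties of the `ℓ`-adic data, among them the theorems of Faltings (`semisimple` and `endomorphisms`); `χ` is
the cyclotomic character. -/
structure Axioms (A : AV Γ W T V) (ℓ : ℕ) [Fact ℓ.Prime] (χ : Γ →* ℚ_[ℓ]) : Prop where
  alternating : Alternating (A.ω ℓ)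
  nondegenerate : Nondegenerate (A.ω ℓ)
  invariant : Invariant (A.ρ ℓ) χ (A.ω ℓ)
  compatible : Compatible (A.comp ℓ) A.pol (A.ω ℓ)
  semisimple : FiniteIndexSemisimple (A.ρ ℓ)
  endomorphisms : FaltingsEnd A.per (A.comp ℓ) (A.ρ ℓ)

/-- The Mumford-Tate conjecture for the abelian variety `A` and the prime number `ℓ`, in the strong form: all Tate classes in the
tensor powers of `H^1` are linear combinations of products of Hodge classes of degree two. -/
def MT (A : AV Γ W T V) (ℓ : ℕ) [Fact ℓ.Prime] (χ : Γ →* ℚ_[ℓ]) : Prop :=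
  MumfordTateStrong A.per (A.comp ℓ) (A.ρ ℓ) χ

variable [∀ (ℓ : ℕ) [Fact ℓ.Prime], FiniteDimensional ℚ_[ℓ] (V ℓ)]

variable (Γ W T V) in
/-- A family of polarized abelian varieties `A t` over a number field with Galois group `Γ` with `d` integral
parameters, for `t` in a set `U ⊆ ℤ^d`; `χ ℓ` is the cyclotomic character. For every prime number `p` there are a Frobenius element
`γ p` at a place above `p` with `p ^ a p` elements in the residue field, and a set `good p` of residue classes
modulo `p`; the integral points in these classes belong to `U`, and the characteristic polynomial of `γ p` on the Tate modules is a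
polynomial `Frob p x` with rational coefficients which depends only on the residue class `x` modulo `p` of the integral point. -/
structure Family (d : ℕ) where
  U : Set (Fin d → ℤ)
  good : ∀ p : ℕ, Set (Fin d → ZMod p)
  mem : ∀ p : ℕ, p.Prime → ∀ t : Fin d → ℤ, red p t ∈ good p → t ∈ U
  A : (Fin d → ℤ) → AV Γ W T V
  χ : ∀ (ℓ : ℕ) [Fact ℓ.Prime], Γ →* ℚ_[ℓ]
  hodge : ∀ t ∈ U, IsHodgeBilinear (A t).per (A t).pol
  properties : ∀ t ∈ U, ∀ (ℓ : ℕ) [Fact ℓ.Prime], Axioms (A t) ℓ (χ ℓ)
  a : ℕ → ℕ
  γ : ℕ → Γ
  degree : ∀ p : ℕ, p.Prime → 0 < a p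
  cyclotomic : ∀ p : ℕ, p.Prime → ∀ (ℓ : ℕ) [Fact ℓ.Prime], p ≠ ℓ → χ ℓ (γ p) = (p : ℚ_[ℓ]) ^ a p
  Frob : ∀ p : ℕ, (Fin d → ZMod p) → ℚ[X]
  charpoly : ∀ p : ℕ, p.Prime → ∀ (ℓ : ℕ) [Fact ℓ.Prime], p ≠ ℓ → ∀ t : Fin d → ℤ, red p t ∈ good p →
    HasCharpoly ((A t).ρ ℓ) (γ p) (Frob p (red p t))

end family

/-- A CM field `E` with a CM subfield `F`. -/
structure CMPair where
  F : Type
  E : Type
  [fieldF : Field F]
  [numberFieldF : NumberField F]
  [cmF : IsCMField F]
  [fieldE : Field E]
  [numberFieldE : NumberField E]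
  [cmE : IsCMField E]
  [algebra : Algebra F E]

attribute [instance] CMPair.fieldF CMPair.numberFieldF CMPair.cmF CMPair.fieldE CMPair.numberFieldE CMPair.cmE CMPair.algebra

/-- The polynomial `Q` is of tower type: it is the product of the minimal polynomials of Weil numbers `π i` (with `p ^ a` elements in
the residue field), generating CM fields `E i` which are extensions of degree `r i ^ k i` of CM fields `F i`, as in the starting file
`OneFrobeniusTowers` (`TowerFamily`). -/
def TowerType (p a : ℕ) (Q : ℚ[X]) : Prop :=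
  ∃ (_ : Fact p.Prime) (ι : Type) (_ : Fintype ι) (c : ι → CMPair) (r k : ι → ℕ) (π : ∀ i, (c i).E),
    TowerFamily p a (fun i => (c i).F) (fun i => (c i).E) r k π ∧ Q = ∏ i, minpoly ℚ (π i)

section classes

variable {Γ W T : Type} [Group Γ] [AddCommGroup W] [Module ℚ W] [AddCommGroup T] [Module ℂ T] {V : ℕ → Type}
  [∀ ℓ, AddCommGroup (V ℓ)] [∀ (ℓ : ℕ) [Fact ℓ.Prime], Module ℚ_[ℓ] (V ℓ)]
  [∀ (ℓ : ℕ) [Fact ℓ.Prime], FiniteDimensional ℚ_[ℓ] (V ℓ)]

/-- The good residue classes modulo `p` of tower type. -/
def towerClasses {d : ℕ} (A : Family Γ W T V d) (p : ℕ) : Set (Fin d → ZMod p) :=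
  {x | x ∈ A.good p ∧ TowerType p (A.a p) (A.Frob p x)}

/-- One prime number `p ≠ ℓ` with a residue class of tower type suffices. -/
lemma one_prime {d : ℕ} (A : Family Γ W T V d) (t : Fin d → ℤ) (p : ℕ) (hp : p.Prime)
    (ht : red p t ∈ towerClasses A p) (ℓ : ℕ) [Fact ℓ.Prime] (hl : p ≠ ℓ) : MT (A.A t) ℓ (A.χ ℓ) := by
  obtain ⟨hg, hfact, ι, _, c, r, k, π, hπ, hQ⟩ := ht
  have htU := A.mem p hp t hg
  have ha := A.properties t htU ℓ
  refine OneFrobeniusTowers.result ℓ p (A.a p) (A.degree p hp) (fun i => (c i).F) (fun i => (c i).E) r k π hπ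
    (A.A t).per (A.A t).pol (A.hodge t htU)
    ((A.A t).comp ℓ) ((A.A t).ρ ℓ) (A.χ ℓ) ((A.A t).ω ℓ) ha.alternating ha.nondegenerate ha.invariant
    ha.compatible ha.semisimple ha.endomorphisms (A.γ p) (A.cyclotomic p hp ℓ hl) ?_
  have h1 := A.charpoly p hp ℓ hl t hg
  unfold HasCharpoly at h1
  rw [h1, hQ, Polynomial.map_prod]

end classes

/-- The integers `s i * N i` (`s i` is a sign), after the digits of `N i` in base `b` at the positions in `S i` have been replaced
by the digits `f i`. -/
def changed (b K : ℕ) {d : ℕ} (s : Fin d → ℤ) (N : Fin d → ℕ) (f : Fin d → ℕ → ℕ) (S : Fin d → Finset ℕ) : Fin d → ℤ :=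
  fun i => s i * ((∑ j ∈ Finset.range K, (if j ∈ S i then f i j else N i / b ^ j % b) * b ^ j : ℕ) : ℤ)

/-- `s i` are signs, `N i` has at most `K` digits, and `f i j` is a digit different from the digit number `j` of `N i`. -/
def Admissible (b K : ℕ) {d : ℕ} (s : Fin d → ℤ) (N : Fin d → ℕ) (f : Fin d → ℕ → ℕ) : Prop :=
  (∀ i, s i = 1 ∨ s i = -1) ∧ (∀ i, N i < b ^ K) ∧ ∀ i j, f i j < b ∧ f i j ≠ N i / b ^ j % b

/-- The choices of `r` of the `K` positions for each of `d` integers; their number is `C(K, r) ^ d`. -/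
def choices (d r K : ℕ) : Finset (Fin d → Finset ℕ) :=
  Fintype.piFinset (fun _ => Finset.powersetCard r (Finset.range K))

/-- **The Mumford-Tate conjecture near every integral point, few digits being changed.** -/
theorem result {Γ W T : Type} [Group Γ] [AddCommGroup W] [Module ℚ W] [AddCommGroup T] [Module ℂ T] {V : ℕ → Type}
    [∀ ℓ, AddCommGroup (V ℓ)] [∀ (ℓ : ℕ) [Fact ℓ.Prime], Module ℚ_[ℓ] (V ℓ)]
    [∀ (ℓ : ℕ) [Fact ℓ.Prime], FiniteDimensional ℚ_[ℓ] (V ℓ)] {d : ℕ} (A : Family Γ W T V d)
    (P : ℕ → Prop) (κ θ : ℝ) (hκ : 0 < κ) (hθ : 0 < θ)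
    (hP : ∀ p, P p → p.Prime ∧ κ * (p : ℝ) ^ d ≤ ((towerClasses A p).ncard : ℝ))
    (hcount : ∃ y₀ : ℕ, ∀ y : ℕ, y₀ ≤ y → (y : ℝ) ^ θ ≤ (({p : ℕ | P p ∧ p ≤ y}).ncard : ℝ)) :
    ∀ (b : ℕ), 2 ≤ b → ∀ B : ℝ, 0 < B →
      ∃ C : ℝ, 0 < C ∧ ∃ K₀ : ℕ, ∀ K : ℕ, K₀ ≤ K → ∀ r : ℕ, C * Real.log K ≤ r → 2 * r ≤ K →
      -- every integral point with coordinates with at most `K` digits and all new digits
      ∀ (s : Fin d → ℤ) (N : Fin d → ℕ) (f : Fin d → ℕ → ℕ), Admissible b K s N f →
        ∃ Ex ⊆ choices d r K, (Ex.card : ℝ) ≤ (K : ℝ) ^ (-B) * (K.choose r : ℝ) ^ d ∧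
          ∀ S ∈ choices d r K, S ∉ Ex →
            changed b K s N f S ∈ A.U ∧ ∀ (ℓ : ℕ) [Fact ℓ.Prime], MT (A.A (changed b K s N f S)) ℓ (A.χ ℓ) := by
  classical
  intro b hb B hB
  obtain ⟨C, hC, K₀, h⟩ := Pool.Agent.Q328.VD.many_fin 1 b hb B 1 κ θ hB one_pos hκ hθ d P
    (fun p => towerClasses A p) (fun p hp => ⟨(hP p hp).1, by
      have := (hP p hp).2
      rwa [← Nat.card_coe_set_eq] at this⟩) hcount
  refine ⟨C, hC, K₀, fun K hK r hr hrK s N f hA => ?_⟩
  obtain ⟨Ex, hEx⟩ : ∃ Ex : Finset (Fin d → Finset ℕ), Ex =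
      (choices d r K).filter (fun S => Set.ncard {p : ℕ | P p ∧ (p : ℝ) ≤ (K : ℝ) ^ (1 : ℝ) ∧
        red p (changed b K s N f S) ∈ towerClasses A p} ≤ 1) := ⟨_, rfl⟩
  refine ⟨Ex, by rw [hEx]; exact Finset.filter_subset _ _, ?_, fun S hS hS2 => ?_⟩
  · rw [hEx]
    exact h K hK r hr hrK N hA.2.1 s hA.1 f hA.2.2
  · rw [hEx, Finset.mem_filter, not_and] at hS2
    have h2 : 1 < Set.ncard {p : ℕ | P p ∧ (p : ℝ) ≤ (K : ℝ) ^ (1 : ℝ) ∧
        red p (changed b K s N f S) ∈ towerClasses A p} := not_le.1 (hS2 hS)
    have hfin : {p : ℕ | P p ∧ (p : ℝ) ≤ (K : ℝ) ^ (1 : ℝ) ∧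
        red p (changed b K s N f S) ∈ towerClasses A p}.Finite := by
      refine (Set.finite_Iic K).subset fun p hp => ?_
      have h1 := hp.2.1
      rw [Real.rpow_one] at h1
      exact_mod_cast h1
    obtain ⟨p, hp, q, hq, hpq⟩ := (Set.one_lt_ncard hfin).1 h2
    refine ⟨A.mem p (hP p hp.1).1 _ hp.2.2.1, fun ℓ _ => ?_⟩
    by_cases hl : p = ℓ
    · exact one_prime A _ q (hP q hq.1).1 hq.2.2 ℓ fun h3 => hpq (hl.trans h3.symm)
    · exact one_prime A _ p (hP p hp.1).1 hp.2.2 ℓ hl

end Pool.Agent.Results.MP_c1bb77_ag.FewDigitMembers
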