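import Pool.Agent.Q137.UO.Grp

/-!
# The Mumford-Tate conjecture and cubic hypersurfaces

Let `K` be a number field in `ℂ`, `ℓ` a prime number and `M` the category of André motives over `K`, a
semisimple abelian category with Tate twists `N ↦ N(a)`. For a scheme `X` of finite type over `ℚ` let
`D.H i X` be the graded object of the weight filtration of `H^i_c(X_K)`; for smooth projective `X` it is
the motive `h^i(X_K)`.

Let `W N` be the vector space `H(N) ⊗ E` for the Betti realization `H(N)` and the algebraic closure `E`
of `ℚ_ℓ`; by the comparison isomorphism this is also the `ℓ`-adic realization, with coefficients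
extended to `E`. The group `P.A N` is the group of the `E`-points of the Mumford-Tate group of `N`, and
`P.B N` is the group of the `E`-points of the identity component of the Zariski closure of the image of
the Galois group of `K`; both are subgroups of `GL(W N)`. So `Same P N` is the Mumford-Tate conjecture
for `N`, and `Same P (D.H i Y)` is question Q1 for `Y_K` and `i`.

Both groups are contained in the motivic Galois group of `N`; for a direct factor of `N` they are the
images by restriction (`IsMT.mt`, `IsMT.gl`). The property `IsMT.single` is the reduction of finite sums
to single cohomology groups: let `E` be an elliptic curve, `Y'_j = Y_j` for odd `i_j` and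
`Y'_j = Y_j × E` for even `i_j`, and let `X` be the disjoint union of the products of the `Y'_j` and `E`
with a projective space `ℙ^m`, `m` large. Up to a finite kernel, the groups of the sum of the
`h^{i_j}(Y_j)(a_j)` are quotients of the groups of `h^{2m+1}(X)`; note that the groups are connected.

Every smooth projective variety over `K` is a union of connected components of `Y_K` for a smooth
projective scheme `Y` over `ℚ` of the same dimension.

**Theorem.**
1. The Mumford-Tate conjecture is true for all smooth projective varieties over `K` if and only if it is
   true for all finite direct sums of Tate motives and of Tate twists of the motives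
   `Gr^W H^i_c((X_H)_K)` of the affine cubic hypersurfaces `X_H : ∑_{(i, j, l) ∈ H} x_i y_j z_l = 1`, for
   finite sets `H` of triples.
2. For every `n` it is true for all finite direct sums of Tate twists of motives `h^i(Y_K)`, `Y` smooth
   projective of dimension at most `n` over `ℚ`, if and only if it is true for all finite direct sums of
   Tate motives and of Tate twists of the motives `Gr^W H^i_c` of hypersurfaces `T(x, y, z) = 1`, `T` a
   trilinear form with rational coefficients and a block of at most `n + 2` variables.
3. It is true for these direct sums if the forms have blocks of at most two variables.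
-/

set_option autoImplicit false

open CategoryTheory CategoryTheory.Limits AlgebraicGeometry Pool.Agent.Y116.UV Pool.Agent.Z125.UN
  Pool.Agent.Q193.LT Pool.Agent.Q137.UO

universe v u

namespace Pool.Agent.Results.MP_c1bb77_ag.CubicMotives

/-- **The Mumford-Tate conjecture and cubic hypersurfaces.** See the explanations above. -/
theorem result {M : Type u} [Category.{v} M] [Abelian M] {D : CompactData ℚ M} (h : IsMotives D)
    {ℓ : ℕ} [Fact ℓ.Prime] {W : M ⥤ ModuleCat.{0} (AlgebraicClosure ℚ_[ℓ])} {P : GroupPair W}
    (hP : IsMT D P) :
    ((∀ Y : Sch ℚ, SmoothProj Y → ∀ i, Same P (D.H i Y)) ↔ SumsHave D (OfGraphs D) (Same P)) ∧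
    (∀ n : ℕ, SumsHave D (OfProj D n) (Same P) ↔ SumsHave D (OfForms D (n + 2)) (Same P)) ∧
    SumsHave D (OfForms D 2) (Same P) := by
  have h1 := fun n => sums_dim_iff h.compact h.generated h.semisimple
    (Same.factor hP.mt hP.gl) n
  exact ⟨(single_iff_sums h.compact hP).trans
    (sums_graph_iff h.compact h.generated h.semisimple (Same.factor hP.mt hP.gl) frac_rat), h1,
    (h1 0).1 hP.zero⟩

end Pool.Agent.Results.MP_c1bb77_ag.CubicMotives
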