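import Pool.Agent.Q49.WU.Groups

/-!
# The Mumford-Tate conjecture for `H^i`, one degree `i` at a time, and cubic hypersurfaces

Let `K` be a number field in `ℂ`, `ℓ` a prime number and `i ≥ 1` a fixed degree. Let `M` be the category of
André motives over `K`, a semisimple abelian category with Tate twists `N ↦ N(a)`. For a scheme `X` of
finite type over `ℚ` let `D.H m n X` be the motive `Gr^W_{i+2m} H^n_c(X_K)`. For smooth projective `Y` the
motive `D.H 0 n Y` is `h^i(Y_K)` if `n = i`, and zero for all other `n`.

Let `W N` be the vector space `H(N) ⊗ E` for the Betti realization `H(N)` and the algebraic closure `E`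
of `ℚ_ℓ`; by the comparison isomorphism this is also the `ℓ`-adic realization, with coefficients
extended to `E`. The group `P.A N` is the group of the `E`-points of the Mumford-Tate group of `N`, and
`P.B N` is the group of the `E`-points of the identity component of the Zariski closure of the image of
the Galois group of `K`; both are subgroups of `GL(W N)`. So `Same P N` is the Mumford-Tate conjecture
for `N`, and `∀ n, Same P (D.H 0 n Y)` is question Q1 for `Y_K` and the degree `i`.

Both groups are contained in the motivic Galois group of `N`; for a direct factor of `N` they are the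
images by restriction (hypotheses `mt`, `gl`). The hypothesis `single` (known): let `N` be the direct sum of
finitely many motives `h^i(Y_j)(a_j)` and Tate motives, with nonempty `Y_j`, let `C` be an elliptic
curve and `X = ∏ Y_j × C^i`. Then `h^i(Y_j)` and `h^1(C)^{⊗ i}` are direct factors of `h^i(X)`, and
`ℚ(i)` is in the Tannakian category of `h^i(X)`. Therefore the groups of `N` are, up to a
finite kernel, quotients of the groups of `h^i(X)`; as the groups are connected, their equality for
`h^i(X)` implies the equality for `N`.

Every smooth projective variety over `K` is a union of connected components of `Y_K` for a smooth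
projective scheme `Y` over `ℚ`.

**Theorem.** Fix `i ≥ 1`. Question Q1 in degree `i` has a positive answer for all smooth projective
varieties over `K` if and only if the Mumford-Tate conjecture is true

1. for all finite direct sums of Tate motives and of Tate twists of the motives
   `Gr^W_{i+2(a-1)} H^n_c((X_H)_K)` of the smooth affine cubic hypersurfaces
   `X_H : ∑_{(p, q, r) ∈ H} x_p y_q z_r = 1` of all finite sets `H` of triples, where `a` is the number
   of the variables `x_p`: only this one weight of the cohomology of `X_H` is needed;
2. equivalently, for the same sums for the hypersurfaces `T(x, y, z) = 1` of all trilinear forms `T` with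
   rational coefficients in `a` variables `x_p` and any numbers of variables `y_q`, `z_r`.
-/

set_option autoImplicit false

open CategoryTheory CategoryTheory.Limits AlgebraicGeometry Pool.Agent.Y116.UV Pool.Agent.Z125.UN
  Pool.Agent.Q193.LT Pool.Agent.Q137.UO Pool.Agent.Q49.WU

universe v u

namespace Pool.Agent.Results.MP_c1bb77_ag.WeightByWeight

/-- **The Mumford-Tate conjecture in one degree and cubic hypersurfaces.** See the explanations above. -/
theorem result {M : Type u} [Category.{v} M] [Abelian M] {D : WeightData ℚ M} (h : IsWMotives D)
    {ℓ : ℕ} [Fact ℓ.Prime] {W : M ⥤ ModuleCat.{0} (AlgebraicClosure ℚ_[ℓ])} {P : GroupPair W}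
    (mt : Restricts P.A) (gl : Restricts P.B) (single : SingleAt D (Same P)) :
    ((∀ Y : Sch ℚ, SmoothProj Y → ∀ n, Same P (D.H 0 n Y)) ↔
      SumsAt D (OfGraphsAt D) (Same P)) ∧
    ((∀ Y : Sch ℚ, SmoothProj Y → ∀ n, Same P (D.H 0 n Y)) ↔
      SumsAt D (OfFormsAt D) (Same P)) :=
  ⟨single_graphs h (Same.factor mt gl) single frac_rat,
    single_forms h (Same.factor mt gl) single⟩

end Pool.Agent.Results.MP_c1bb77_ag.WeightByWeight
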