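import Pool.Agent.Q67.TZ.Final

/-!
# MP_c1bb77_ag: the zero-one law for Hodge classes and Tate classes on the powers of a variety
-/

set_option autoImplicit false

open CategoryTheory AlgebraicGeometry

universe u

namespace Pool.Agent.Results.MP_c1bb77_ag.ZeroOneMumfordTate

open Pool.Agent.H914
open Pool.Agent.Y133.Half (pw)
open Pool.Agent.Q67.TN Pool.Agent.Q67.TZ
open Pool.Agent.Q67.TG.F (IsPolarisation)

/-- Let `S` consist of a Hodge theory `S.T` (a Weil cohomology theory with rational coefficients and
a Hodge decomposition of its cohomology with complex coefficients) and of a field `L` between the
rational and the complex numbers (for instance `ℚ_ℓ`, with an embedding in `ℂ`). Let `D` be a family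
of derivations of the cohomology with coefficients in `L` which preserve degrees, commute with
pull-backs and kill traces and the classes of algebraic cycles. In the intended case `k` is an
algebraic closure of a finitely generated field `F` of characteristic zero and `D` is the Lie
algebra of the image of the absolute Galois group of `F`, acting on `H^i(X, ℚ_ℓ(i/2))`; then the
classes of degree `2 j` killed by `D` are the Tate classes of `X`.

Let `u` be a polarisation of the cohomology of `X` which is given by classes which are both Hodge
classes and Tate classes (such a polarisation exists for every smooth projective variety, by the
hard Lefschetz theorem and the Hodge-Riemann relations). Then there are `NH` and `NT`, for the Hodge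
classes and for the Tate classes (`R` stands for the Hodge, respectively Tate classes), such that

* the quotients of the dimensions of the space spanned by `R` and the space spanned by the classes
  which are both Hodge and Tate classes, on the product of `n + 1` copies of `X`, converge to `NH`,
  respectively `NT`;
* **zero-one law**: both `NH` and `NT` are `1` or `∞`. The number is `1` if and only if all classes of
  `R` on all powers of `X` are linear combinations of classes which are both Hodge and Tate classes,
  and if and only if every operator on the cohomology of `X` which kills (as a derivation) the
  classes of the latter kind on all powers, kills the classes in `R` on all powers;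
* the question whether this is so (for the Tate classes: if the cohomology of `X × X` is
  semisimple under `D`) is decided by the classes on the fourth power of `X` and by the centre of
  the algebra of the correspondences given by `R`; if no nonzero element of the centre of the algebra
  of the correspondences given by classes which are both Hodge and Tate classes is skew-symmetric,
  it is decided on `X^4`;
* `NH = 1` if and only if all Hodge classes on all powers of `X` are Tate classes, and if `NT = 1`
  all Tate classes on all powers are linear combinations of Hodge classes. If the Hodge classes on
  `X^4` are Tate classes, the Tate classes on `X^4` are linear combinations of Hodge classes, and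
  there are no skew-symmetric central elements, then `NH = NT = 1`: the Mumford-Tate conjecture
  for `X`. -/
theorem result {k : Type u} [Field k] {𝒱 : VarClass k} {ops : CycleOps 𝒱} (S : Theory ops)
    (D : Action S) (hD : Infinitesimal (algebraic S) D) (X : 𝒱.Obj) [Nontrivial (RH S X)]
    (u : Pool.Agent.Q67.TG.F.Opr S.T X) (hu : IsRatOp (both D) X u)
    (hpol : IsPolarisation S.T X u) :
    ∃ NH NT : ℕ∞, ZeroOne (hodge S) (both D) X NH ∧ ZeroOne (tate D) (both D) X NT ∧
      Fourth (hodge S) (both D) X ∧
      (Semisimple D (X.prod X) → Fourth (tate D) (both D) X ∧
        (In (hodge S) (tate D) (pw X 3) → In (tate D) (hodge S) (pw X 3) →
          NoCentralSkew (both D) X → NH = 1 ∧ NT = 1)) ∧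
      (NH = 1 ↔ ∀ n, In (hodge S) (tate D) (pw X n)) ∧
      (NT = 1 → ∀ n, In (tate D) (hodge S) (pw X n)) :=
  zero_one_law S D hD X u hu hpol

end Pool.Agent.Results.MP_c1bb77_ag.ZeroOneMumfordTate
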